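import Mathlib

/-! Dimension theory of affine domains in terms of transcendence degree. -/

namespace Pool.Agent.MP_d171e3_nt

open Algebra MvPolynomial Cardinal

variable {K : Type} [Field K]

theorem trdeg_succ_le {A A' : Type} [CommRing A] [CommRing A'] [IsDomain A] [IsDomain A']
    [Algebra K A] [Algebra K A'] (φ : A →ₐ[K] A') (hφ : Function.Surjective φ) {g : A}
    (hg : g ≠ 0) (hg0 : φ g = 0) : trdeg K A' + 1 ≤ trdeg K A := by
  obtain ⟨t, ht⟩ := exists_isTranscendenceBasis K A'
  choose y hy using fun i : t => hφ i.1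
  have hx : AlgebraicIndependent K (φ ∘ y) := by
    have : φ ∘ y = ((↑) : t → A') := funext hy
    rw [this]; exact ht.1
  have hyi : AlgebraicIndependent K y := AlgebraicIndependent.of_comp φ hx
  have htr : Transcendental (adjoin K (Set.range y)) g := by
    intro halg
    obtain ⟨r, hr, u, hu⟩ := halg.exists_nonzero_dvd (mem_nonZeroDivisors_of_ne_zero hg)
    obtain ⟨r, hr'⟩ := r
    rw [adjoin_range_eq_range_aeval] at hr'
    obtain ⟨F, rfl⟩ := hr'
    have h1 : aeval (φ ∘ y) F = 0 := by
      have h2 := congrArg φ hu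
      rw [map_mul, hg0, zero_mul] at h2
      rw [← h2]
      exact (comp_aeval_apply y φ F).symm
    have h3 := algebraicIndependent_iff.mp hx F h1
    apply hr
    subst h3
    exact Subtype.ext (by simp)
  have h := ((hyi.option_iff_transcendental g).mpr htr).cardinalMk_le_trdeg
  rwa [mk_option, ht.cardinalMk_eq_trdeg] at h

theorem trdeg_le_succ {A A' : Type} [CommRing A] [CommRing A'] [IsDomain A] [IsDomain A']
    [Algebra K A] [Algebra K A'] [FiniteType K A] (φ : A →ₐ[K] A')
    (hh : (RingHom.ker φ).height ≤ 1) : trdeg K A ≤ trdeg K A' + 1 := by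
  classical
  obtain ⟨s, g, ginj, gint⟩ := exists_integral_inj_algHom_of_fg K A
  algebraize [g.toRingHom]
  have : IsNoetherianRing A := FiniteType.isNoetherianRing K A
  have : IsScalarTower K (MvPolynomial (Fin s) K) A :=
    IsScalarTower.of_algebraMap_eq fun x => (g.commutes x).symm
  have : FaithfulSMul (MvPolynomial (Fin s) K) A :=
    (faithfulSMul_iff_algebraMap_injective _ _).mpr ginj
  have htA : trdeg K A = s := by
    rw [← trdeg_add_eq K (MvPolynomial (Fin s) K), trdeg_eq_zero (R := MvPolynomial (Fin s) K),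
      add_zero, MvPolynomial.trdeg_of_isDomain]
    simp
  have hP : (RingHom.ker φ).IsPrime := RingHom.ker_isPrime _
  set p := (RingHom.ker φ).under (MvPolynomial (Fin s) K) with hp
  have hle : p.height ≤ 1 := by
    have := Ideal.height_eq_height_add_of_liesOver_of_hasGoingDown p (RingHom.ker φ)
    exact le_trans (this ▸ le_self_add) hh
  have mem : ∀ F, F ∈ p ↔ aeval (fun i => φ (g (X i))) F = 0 := by
    intro F
    have e : aeval (fun i => φ (g (X i))) = φ.comp g := by
      ext i; simp
    rw [e]; rfl
  rw [htA]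
  by_cases hb : p = ⊥
  · have : AlgebraicIndependent K fun i => φ (g (X i)) := by
      rw [algebraicIndependent_iff]
      intro F hF
      have := (mem F).mpr hF
      rwa [hb] at this
    have h := this.lift_cardinalMk_le_trdeg
    simp only [mk_fintype, Fintype.card_fin, lift_id] at h
    exact h.trans le_self_add
  · have h1 : p.height = 1 := by
      refine le_antisymm hle (Order.one_le_iff_ne_zero.mpr fun h0 => hb ?_)
      rw [Ideal.height_eq_zero_iff, IsDomain.minimalPrimes_eq_singleton_bot] at h0
      exact h0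
    obtain ⟨h, hh'⟩ := (UniqueFactorizationMonoid.isPrincipal_of_height_eq_one h1).principal
    have hne : h ≠ 0 := by
      rintro rfl
      exact hb (by rw [hh']; simp)
    have hmem : h ∈ p := by rw [hh']; exact Submodule.mem_span_singleton_self h
    obtain ⟨j, hj⟩ : h.vars.Nonempty := by
      by_contra hc
      rw [Finset.not_nonempty_iff_eq_empty] at hc
      have hC : h = C (coeff 0 h) := by
        apply totalDegree_eq_zero_iff_eq_C.mp
        rw [totalDegree_eq_zero_iff]
        intro m hm x
        by_contra hx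
        have : x ∈ h.vars := (mem_vars_iff_mem_support x).mpr ⟨m, hm, Finsupp.mem_support_iff.mpr hx⟩
        simp [hc] at this
      have h2 := (mem h).mp hmem
      rw [hC, aeval_C] at h2
      apply hne
      rw [hC, (map_eq_zero _).mp h2, map_zero]
    have : AlgebraicIndependent K fun i : {i // i ≠ j} => φ (g (X i.1)) := by
      rw [algebraicIndependent_iff]
      intro F hF
      have h2 : rename Subtype.val F ∈ p := by
        rw [mem, aeval_rename]; exact hF
      rw [hh'] at h2
      obtain ⟨u, hu⟩ := Submodule.mem_span_singleton.mp h2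
      by_contra hF0
      have h3 : rename Subtype.val F ≠ 0 := fun h =>
        hF0 (rename_injective _ Subtype.val_injective (by rw [h, map_zero]))
      have hu0 : u ≠ 0 := by
        rintro rfl
        exact h3 (by rw [← hu]; simp)
      have h4 : j ∈ (rename Subtype.val F).vars := by
        rw [mem_vars_iff_degreeOf_ne_zero, ← hu, smul_eq_mul, degreeOf_mul_eq hu0 hne]
        have := mem_vars_iff_degreeOf_ne_zero.mp hj
        omega
      obtain ⟨i, -, hi⟩ := mem_vars_rename _ _ h4
      exact i.2 hi
    have h := this.lift_cardinalMk_le_trdeg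
    simp only [mk_fintype, lift_id, ne_eq, Fintype.card_subtype_compl, Fintype.card_fin,
      Fintype.card_unique] at h
    have hs : 1 ≤ s := j.pos
    calc (s : Cardinal) = ((s - 1 : ℕ) : Cardinal) + 1 := by
          exact_mod_cast (Nat.sub_add_cancel hs).symm
      _ ≤ _ := add_le_add_left h 1

variable {σ : Type} [Fintype σ]

/-- dimension of a prime -/
noncomputable def dm (p : Ideal (MvPolynomial σ K)) : ℕ := (trdeg K (MvPolynomial σ K ⧸ p)).toNat

theorem dm_cast (p : Ideal (MvPolynomial σ K)) [p.IsPrime] :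
    (dm p : Cardinal) = trdeg K (MvPolynomial σ K ⧸ p) :=
  cast_toNat_of_lt_aleph0 trdeg_lt_aleph0_of_finiteType

theorem dm_lt {q p : Ideal (MvPolynomial σ K)} [q.IsPrime] [p.IsPrime] (h : q < p) :
    dm p < dm q := by
  obtain ⟨g, hg, hg'⟩ := SetLike.exists_of_lt h
  have := trdeg_succ_le (Ideal.Quotient.factorₐ K h.le) (Ideal.Quotient.factor_surjective h.le)
    (g := Ideal.Quotient.mk q g) (by rwa [Ne, Ideal.Quotient.eq_zero_iff_mem])
    (Ideal.Quotient.eq_zero_iff_mem.mpr hg)
  rw [← dm_cast, ← dm_cast] at this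
  exact_mod_cast this

theorem dm_le_succ {q p : Ideal (MvPolynomial σ K)} [q.IsPrime] {g : MvPolynomial σ K}
    (h : p ∈ (q ⊔ Ideal.span {g}).minimalPrimes) : dm q ≤ dm p + 1 := by
  have := h.isPrime
  have hle : q ≤ p := le_sup_left.trans h.le
  have h1 := trdeg_le_succ (Ideal.Quotient.factorₐ K hle) (by
    have h2 := Ideal.map_height_le_one_of_mem_minimalPrimes h
    rwa [← Ideal.Quotient.factor_ker hle] at h2)
  rw [← dm_cast, ← dm_cast] at h1
  exact_mod_cast h1

theorem card_le_dm {p : Ideal (MvPolynomial σ K)} [p.IsPrime] {ι : Type} [Fintype ι]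
    {x : ι → MvPolynomial σ K ⧸ p} (h : AlgebraicIndependent K x) : Fintype.card ι ≤ dm p := by
  have := h.cardinalMk_le_trdeg
  rw [← dm_cast, mk_fintype] at this
  exact_mod_cast this

theorem dm_bot : dm (⊥ : Ideal (MvPolynomial σ K)) = Fintype.card σ := by
  unfold dm
  rw [(AlgEquiv.quotientBot K (MvPolynomial σ K)).trdeg_eq, MvPolynomial.trdeg_of_isDomain]
  simp

theorem exists_indep (p : Ideal (MvPolynomial σ K)) [p.IsPrime] :
    ∃ c : Fin (dm p) → σ, Function.Injective c ∧
      AlgebraicIndependent K fun i => Ideal.Quotient.mk p (X (c i)) := by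
  have hadj : adjoin K (Set.range fun i : σ => Ideal.Quotient.mk p (X i)) = ⊤ := by
    rw [adjoin_range_eq_range_aeval, _root_.eq_top_iff]
    intro x _
    obtain ⟨F, rfl⟩ := Ideal.Quotient.mk_surjective x
    refine ⟨F, ?_⟩
    have e : aeval (fun i : σ => Ideal.Quotient.mk p (X i)) = Ideal.Quotient.mkₐ K p := by
      ext i; simp
    change aeval (fun i : σ => Ideal.Quotient.mk p (X i)) F = _
    rw [e]; rfl
  have : Algebra.IsAlgebraic (adjoin K (Set.range fun i : σ => Ideal.Quotient.mk p (X i)))
      (MvPolynomial σ K ⧸ p) := by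
    refine ⟨fun x => ?_⟩
    exact isAlgebraic_algebraMap
      (⟨x, by rw [hadj]; trivial⟩ : adjoin K (Set.range fun i : σ => Ideal.Quotient.mk p (X i)))
  obtain ⟨t, hts, ht⟩ := exists_isTranscendenceBasis_subset (R := K)
    (Set.range fun i : σ => Ideal.Quotient.mk p (X i))
  have hc : #t = #(Fin (dm p)) := by
    rw [ht.cardinalMk_eq_trdeg, ← dm_cast]; simp
  obtain ⟨e⟩ := Cardinal.eq.mp hc
  choose c hc using fun i : Fin (dm p) => hts (e.symm i).2
  have hi : AlgebraicIndependent K fun i => Ideal.Quotient.mk p (X (c i)) := by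
    have : (fun i => Ideal.Quotient.mk p (X (c i))) = ((↑) : t → _) ∘ e.symm := funext hc
    rw [this]
    exact ht.1.comp _ e.symm.injective
  exact ⟨c, fun i j hij => hi.injective (by simp only [hij]), hi⟩

omit [Fintype σ] in
theorem dm_comap (p : Ideal (MvPolynomial σ K)) (e : MvPolynomial σ K ≃ₐ[K] MvPolynomial σ K) :
    dm (p.comap e) = dm p := by
  unfold dm
  rw [(Ideal.quotientEquivAlg (p.comap e) p e
    (Ideal.map_comap_of_surjective (e : MvPolynomial σ K →+* MvPolynomial σ K) e.surjective p).symm).trdeg_eq]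

end Pool.Agent.MP_d171e3_nt
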