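import Mathlib

/-! Construction of an exponential sum with integer coefficients which is small on a cube. -/

namespace Pool.Agent.MP_d171e3_nt

open Finset

lemma pigeon {I J : Type*} [Fintype I] [Fintype J] (a : I → J → ℝ) (A δ : ℝ) (H M : ℕ)
    (hδ : 0 < δ) (ha : ∀ i j, |a i j| ≤ A) (hM : Fintype.card I * (H * A) ≤ M * δ)
    (hc : (2 * M + 1) ^ Fintype.card J < (H + 1) ^ Fintype.card I) :
    ∃ c : I → ℤ, c ≠ 0 ∧ (∀ i, |(c i : ℝ)| ≤ H) ∧ ∀ j, |∑ i, c i * a i j| < δ := by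
  classical
  let f : (I → Fin (H + 1)) → (J → ℤ) := fun c j => ⌊(∑ i, ((c i : ℕ) : ℝ) * a i j) / δ⌋
  have hb : ∀ (c : I → Fin (H + 1)) j, |(∑ i, ((c i : ℕ) : ℝ) * a i j) / δ| ≤ M := by
    intro c j
    rw [abs_div, abs_of_pos hδ, div_le_iff₀ hδ]
    refine (abs_sum_le_sum_abs _ _).trans (le_trans ?_ hM)
    rw [← nsmul_eq_mul]
    refine sum_le_card_nsmul _ _ _ fun i _ => ?_
    rw [abs_mul, Nat.abs_cast]
    have h1 : ((c i : ℕ) : ℝ) ≤ H := by exact_mod_cast Nat.lt_succ_iff.mp (c i).2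
    exact mul_le_mul h1 (ha i j) (abs_nonneg _) (Nat.cast_nonneg _)
  obtain ⟨x, -, y, -, hxy, hf⟩ := exists_ne_map_eq_of_card_lt_of_maps_to
    (s := (univ : Finset (I → Fin (H + 1))))
    (t := Fintype.piFinset fun _ : J => Icc (-(M : ℤ)) M) (f := f) (by
      rw [Fintype.card_piFinset, prod_const, card_univ, card_univ, Fintype.card_fun,
        Fintype.card_fin, Int.card_Icc]
      have : ((M : ℤ) + 1 - -(M : ℤ)).toNat = 2 * M + 1 := by omega
      rwa [this]) (by
      intro c _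
      simp only [mem_coe, Fintype.mem_piFinset, mem_Icc]
      intro j
      have := abs_le.mp (hb c j)
      constructor
      · exact Int.le_floor.mpr (by exact_mod_cast this.1)
      · exact Int.floor_le_iff.mpr (by push_cast; linarith [this.2]))
  refine ⟨fun i => ((x i : ℕ) : ℤ) - ((y i : ℕ) : ℤ), ?_, ?_, ?_⟩
  · intro h0
    apply hxy
    ext i
    have := congrFun h0 i
    simp only [Pi.zero_apply] at this
    omega
  · intro i
    have h1 : ((x i : ℕ) : ℝ) ≤ H := by exact_mod_cast Nat.lt_succ_iff.mp (x i).2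
    have h2 : ((y i : ℕ) : ℝ) ≤ H := by exact_mod_cast Nat.lt_succ_iff.mp (y i).2
    have h3 : (0 : ℝ) ≤ ((x i : ℕ) : ℝ) := Nat.cast_nonneg _
    have h4 : (0 : ℝ) ≤ ((y i : ℕ) : ℝ) := Nat.cast_nonneg _
    push_cast
    rw [abs_le]
    constructor <;> linarith
  · intro j
    have h1 := Int.abs_sub_lt_one_of_floor_eq_floor (congrFun hf j)
    rw [← sub_div, abs_div, abs_of_pos hδ, div_lt_one hδ, ← sum_sub_distrib] at h1
    refine lt_of_eq_of_lt (congrArg _ (sum_congr rfl fun i _ => ?_)) h1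
    push_cast
    ring

lemma abs_prod_sub_prod_le {ι : Type*} (s : Finset ι) (a b : ι → ℝ) (B ε : ℝ) (hB : 1 ≤ B)
    (hε : 0 ≤ ε) (ha : ∀ i, |a i| ≤ B) (hb : ∀ i, |b i| ≤ B) (hab : ∀ i, |a i - b i| ≤ ε) :
    |∏ i ∈ s, a i - ∏ i ∈ s, b i| ≤ s.card * ε * B ^ s.card := by
  classical
  induction s using Finset.induction_on with
  | empty => simp
  | insert x s hx ih =>
    rw [prod_insert hx, prod_insert hx, card_insert_of_notMem hx]
    have h1 : |∏ i ∈ s, b i| ≤ B ^ s.card := by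
      rw [abs_prod, ← prod_const]
      exact prod_le_prod (fun i _ => abs_nonneg _) fun i _ => hb i
    have h2 : a x * ∏ i ∈ s, a i - b x * ∏ i ∈ s, b i =
        a x * (∏ i ∈ s, a i - ∏ i ∈ s, b i) + (a x - b x) * ∏ i ∈ s, b i := by ring
    rw [h2]
    refine (abs_add_le _ _).trans ?_
    rw [abs_mul, abs_mul]
    have h3 : |a x| * |∏ i ∈ s, a i - ∏ i ∈ s, b i| ≤ B * (s.card * ε * B ^ s.card) :=
      mul_le_mul (ha x) ih (abs_nonneg _) (by linarith)
    have h4 : |a x - b x| * |∏ i ∈ s, b i| ≤ ε * B ^ s.card :=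
      mul_le_mul (hab x) h1 (abs_nonneg _) hε
    have h5 : ε * B ^ s.card ≤ ε * B ^ s.card * B :=
      le_mul_of_one_le_right (by positivity) hB
    push_cast
    rw [pow_succ]
    nlinarith

lemma abs_trunc_le (x : ℝ) (k : ℕ) : |∑ m ∈ range k, x ^ m / m.factorial| ≤ Real.exp |x| := by
  refine (abs_sum_le_sum_abs _ _).trans (le_trans (le_of_eq ?_)
    (Real.sum_le_exp_of_nonneg (abs_nonneg x) k))
  refine sum_congr rfl fun m _ => ?_
  rw [abs_div, abs_pow, Nat.abs_cast]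

lemma exp_le_three_pow (U : ℕ) : Real.exp U ≤ 3 ^ U := by
  rw [← mul_one (U : ℝ), Real.exp_nat_mul]
  exact pow_le_pow_left₀ (Real.exp_pos _).le (Real.exp_one_lt_d9.le.trans (by norm_num)) _

lemma abs_exp_sub_trunc (x : ℝ) (U κ : ℕ) (hU : 1 ≤ U) (hκ : 9 ≤ κ) (hx : |x| ≤ U) :
    |Real.exp x - ∑ m ∈ range (κ * U), x ^ m / m.factorial| ≤ 2 / (3 ^ U) ^ κ := by
  have hU' : (1 : ℝ) ≤ U := by exact_mod_cast hU
  have hκ' : (9 : ℝ) ≤ κ := by exact_mod_cast hκ
  have h1 : ‖(x : ℂ)‖ / (κ * U).succ ≤ 1 / 2 := by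
    rw [Complex.norm_real, Real.norm_eq_abs, div_le_iff₀ (by positivity)]
    push_cast
    nlinarith
  have h2 := Complex.exp_bound' h1
  have h3 : Complex.exp x - ∑ m ∈ range (κ * U), (x : ℂ) ^ m / m.factorial =
      ((Real.exp x - ∑ m ∈ range (κ * U), x ^ m / m.factorial : ℝ) : ℂ) := by
    push_cast; rfl
  rw [h3, Complex.norm_real, Complex.norm_real, Real.norm_eq_abs, Real.norm_eq_abs] at h2
  refine h2.trans ?_
  have h4 := Real.pow_div_factorial_le_exp (((κ * U : ℕ) : ℝ)) (Nat.cast_nonneg _) (κ * U)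
  have h5 := exp_le_three_pow (κ * U)
  have h6 : |x| ^ (κ * U) * 9 ^ (κ * U) ≤ ((κ * U : ℕ) : ℝ) ^ (κ * U) := by
    rw [← mul_pow]
    apply pow_le_pow_left₀ (by positivity)
    push_cast
    nlinarith [abs_nonneg x]
  have h7 : (0 : ℝ) < ((κ * U).factorial : ℝ) := by positivity
  have h8 : |x| ^ (κ * U) * 9 ^ (κ * U) ≤ 3 ^ (κ * U) * (κ * U).factorial := by
    rw [div_le_iff₀ h7] at h4
    exact h6.trans (h4.trans (by gcongr))
  have h9 : (9 : ℝ) ^ (κ * U) = 3 ^ (κ * U) * 3 ^ (κ * U) := by rw [← mul_pow]; norm_num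
  have h10 : (0 : ℝ) < 3 ^ (κ * U) := by positivity
  rw [← pow_mul, mul_comm U κ, div_mul_eq_mul_div, div_le_div_iff₀ h7 h10]
  rw [h9] at h8
  have h11 : |x| ^ (κ * U) * 3 ^ (κ * U) ≤ (κ * U).factorial := by
    apply le_of_mul_le_mul_right _ h10
    linarith
  linarith

/-- An exponential sum with integer coefficients which is small on the unit cube. -/
theorem small_values (n U : ℕ) (hU : 1 ≤ U) {I : Type*} [Fintype I] (τ : I → Fin n → ℝ)
    (hτ : ∀ i l, |τ i l| ≤ U) (h1 : 2 * ((3 * n + 9) * U) ^ n ≤ Fintype.card I)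
    (h2 : Fintype.card I ≤ 3 ^ U) :
    ∃ c : I → ℤ, c ≠ 0 ∧ ∀ y : Fin n → ℝ, (∀ l, |y l| ≤ 1) →
      |∑ i, c i * Real.exp (∑ l, τ i l * y l)| < 1 / 3 ^ U := by
  classical
  set K := (3 * n + 9) * U with hK
  set Bn : ℕ := 3 ^ U with hBn
  have hBn3 : 3 ≤ Bn := Nat.le_self_pow (by omega) 3
  set B : ℝ := 3 ^ U with hB
  have hBc : (Bn : ℝ) = B := by rw [hBn]; push_cast; rfl
  have hB3 : (3 : ℝ) ≤ B := by rw [← hBc]; exact_mod_cast hBn3
  have hB0 : (0 : ℝ) < B := by linarith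
  have hL : (Fintype.card I : ℝ) ≤ B := by rw [← hBc]; exact_mod_cast h2
  have hexp : ∀ x : ℝ, |x| ≤ U → Real.exp |x| ≤ B := fun x hx =>
    (Real.exp_le_exp.mpr hx).trans (exp_le_three_pow U)
  let a : I → (Fin n → Fin K) → ℝ := fun i α => ∏ l, τ i l ^ (α l : ℕ) / (α l : ℕ).factorial
  have ha : ∀ i α, |a i α| ≤ B ^ n := by
    intro i α
    have : B ^ n = ∏ _l : Fin n, B := by simp
    rw [this, abs_prod]
    refine prod_le_prod (fun _ _ => abs_nonneg _) fun l _ => ?_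
    rw [abs_div, abs_pow, Nat.abs_cast]
    exact (Real.pow_div_factorial_le_exp _ (abs_nonneg _) _).trans (hexp _ (hτ i l))
  have hKpos : 0 < K ^ n := by
    have : 0 < K := by rw [hK]; positivity
    positivity
  obtain ⟨c, hc0, hcH, hc⟩ := pigeon a (B ^ n) (1 / (2 * B ^ 2)) (Bn ^ (n + 5))
    (2 * Bn ^ (2 * n + 8)) (by positivity) ha (by
      push_cast
      rw [hBc]
      have e : 2 * B ^ (2 * n + 8) * (1 / (2 * B ^ 2)) = B * (B ^ (n + 5) * B ^ n) := by
        field_simp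
        ring
      rw [e]
      gcongr) (by
      rw [Fintype.card_fun, Fintype.card_fin, Fintype.card_fin]
      have e1 : 2 * (2 * Bn ^ (2 * n + 8)) + 1 ≤ (Bn ^ (n + 5)) ^ 2 := by
        have e2 : (Bn ^ (n + 5)) ^ 2 = Bn ^ (2 * n + 8) * Bn ^ 2 := by ring
        have e3 : 9 ≤ Bn ^ 2 := by nlinarith
        have e4 : 0 < Bn ^ (2 * n + 8) := by positivity
        rw [e2]
        nlinarith
      calc (2 * (2 * Bn ^ (2 * n + 8)) + 1) ^ K ^ n ≤ ((Bn ^ (n + 5)) ^ 2) ^ K ^ n :=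
            Nat.pow_le_pow_left e1 _
        _ = (Bn ^ (n + 5)) ^ (2 * K ^ n) := by rw [← pow_mul]
        _ ≤ (Bn ^ (n + 5)) ^ Fintype.card I := Nat.pow_le_pow_right (by positivity) h1
        _ < (Bn ^ (n + 5) + 1) ^ Fintype.card I := Nat.pow_lt_pow_left (by omega) (by omega))
  refine ⟨c, hc0, fun y hy => ?_⟩
  have hty : ∀ i l, |τ i l * y l| ≤ U := by
    intro i l
    rw [abs_mul]
    exact (mul_le_of_le_one_right (abs_nonneg _) (hy l)).trans (hτ i l)
  let tr : I → ℝ := fun i => ∏ l, ∑ m ∈ range K, (τ i l * y l) ^ m / m.factorial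
  have htr : ∀ i, tr i = ∑ α : Fin n → Fin K, a i α * ∏ l, y l ^ (α l : ℕ) := by
    intro i
    simp only [tr, a, sum_range]
    rw [prod_univ_sum, Fintype.piFinset_univ]
    refine sum_congr rfl fun α _ => ?_
    rw [← prod_mul_distrib]
    refine prod_congr rfl fun l _ => ?_
    rw [mul_pow]
    ring
  have herr : ∀ i, |Real.exp (∑ l, τ i l * y l) - tr i| ≤ n * (2 / B ^ (3 * n + 9)) * B ^ n := by
    intro i
    rw [Real.exp_sum]
    have := abs_prod_sub_prod_le univ (fun l => Real.exp (τ i l * y l))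
      (fun l => ∑ m ∈ range K, (τ i l * y l) ^ m / m.factorial) B (2 / B ^ (3 * n + 9))
      (by linarith) (by positivity)
      (fun l => by
        rw [abs_of_pos (Real.exp_pos _)]
        exact (Real.exp_le_exp.mpr (le_abs_self _)).trans (hexp _ (hty i l)))
      (fun l => (abs_trunc_le _ _).trans (hexp _ (hty i l)))
      (fun l => abs_exp_sub_trunc _ U (3 * n + 9) hU (by omega) (hty i l))
    simpa using this
  have hsplit : ∑ i, c i * Real.exp (∑ l, τ i l * y l) =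
      ∑ α : Fin n → Fin K, (∑ i, c i * a i α) * ∏ l, y l ^ (α l : ℕ) +
        ∑ i, c i * (Real.exp (∑ l, τ i l * y l) - tr i) := by
    simp only [sum_mul]
    rw [sum_comm, ← sum_add_distrib]
    refine sum_congr rfl fun i _ => ?_
    rw [htr, mul_sub, mul_sum]
    simp only [mul_assoc]
    ring
  have hmain : |∑ α : Fin n → Fin K, (∑ i, c i * a i α) * ∏ l, y l ^ (α l : ℕ)| ≤
      1 / (4 * B) := by
    refine (abs_sum_le_sum_abs _ _).trans ?_
    refine (sum_le_card_nsmul _ _ (1 / (2 * B ^ 2)) fun α _ => ?_).trans ?_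
    · rw [abs_mul]
      refine (mul_le_of_le_one_right (abs_nonneg _) ?_).trans (hc α).le
      rw [abs_prod]
      refine prod_le_one (fun _ _ => abs_nonneg _) fun l _ => ?_
      rw [abs_pow]
      exact pow_le_one₀ (abs_nonneg _) (hy l)
    · rw [card_univ, Fintype.card_fun, Fintype.card_fin, Fintype.card_fin, nsmul_eq_mul]
      have e : 2 * ((K ^ n : ℕ) : ℝ) ≤ B := by
        rw [← hBc]; exact_mod_cast h1.trans h2
      rw [mul_one_div, div_le_div_iff₀ (by positivity) (by positivity)]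
      nlinarith
  have hrest : |∑ i, c i * (Real.exp (∑ l, τ i l * y l) - tr i)| ≤ 1 / (4 * B) := by
    refine (abs_sum_le_sum_abs _ _).trans ?_
    refine (sum_le_card_nsmul _ _ (B ^ (n + 5) * (n * (2 / B ^ (3 * n + 9)) * B ^ n))
      fun i _ => ?_).trans ?_
    · rw [abs_mul]
      refine mul_le_mul ?_ (herr i) (abs_nonneg _) (by positivity)
      have := hcH i
      push_cast at this
      rwa [hBc] at this
    · rw [card_univ, nsmul_eq_mul]
      have e1 : (n : ℝ) ≤ B ^ n := by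
        have : (n : ℝ) ≤ 3 ^ n := by
          exact_mod_cast (Nat.lt_pow_self (by norm_num : 1 < 3)).le
        exact this.trans (pow_le_pow_left₀ (by norm_num) hB3 _)
      calc (Fintype.card I : ℝ) * (B ^ (n + 5) * (n * (2 / B ^ (3 * n + 9)) * B ^ n))
          ≤ B * (B ^ (n + 5) * (B ^ n * (2 / B ^ (3 * n + 9)) * B ^ n)) := by gcongr
        _ = 2 / B ^ 3 := by field_simp; ring
        _ ≤ 1 / (4 * B) := by
          rw [div_le_div_iff₀ (by positivity) (by positivity)]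
          nlinarith [mul_le_mul hB3 hB3 (by norm_num) hB0.le]
  rw [hsplit]
  refine (abs_add_le _ _).trans_lt ?_
  have : 1 / (4 * B) + 1 / (4 * B) < 1 / B := by
    rw [← add_div, div_lt_div_iff₀ (by positivity) hB0]
    linarith
  linarith

end Pool.Agent.MP_d171e3_nt
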