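import Pool.Agent.MP_d171e3_nt.ZeroEst
import Pool.Agent.MP_d171e3_nt.Small

/-! Logarithms of positive rational points on a real hyperplane. -/

namespace Pool.Agent.MP_d171e3_nt

open Finset

lemma eq_zero_of_small (q : ℚ) (E : ℕ) (B : ℝ) (hE : 0 < E) (hEB : (E : ℝ) ≤ B)
    (hq : (E : ℚ) * q ∈ (Int.castRingHom ℚ).range) (h : |(q : ℝ)| < 1 / B) : q = 0 := by
  obtain ⟨z, hz⟩ := hq
  have hE' : (0 : ℝ) < E := by exact_mod_cast hE
  have h1 : (z : ℝ) = E * q := by
    have : ((z : ℚ) : ℝ) = ((E * q : ℚ) : ℝ) := congrArg _ hz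
    push_cast at this
    exact this
  have h2 : |(z : ℝ)| < 1 := by
    rw [h1, abs_mul, abs_of_pos hE']
    rw [lt_div_iff₀ (by linarith)] at h
    nlinarith [abs_nonneg (q : ℝ)]
  have h3 : z = 0 := by
    have : |z| < 1 := by exact_mod_cast h2
    exact Int.abs_lt_one_iff.mp this
  rw [h3, map_zero] at hz
  exact (mul_eq_zero.mp hz.symm).resolve_left (by exact_mod_cast hE.ne')

lemma den_pow_mul_mem (g : ℚ) (N k : ℕ) (h : k ≤ N) :
    (g.den : ℚ) ^ N * g ^ k ∈ (Int.castRingHom ℚ).range := by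
  refine ⟨(g.den : ℤ) ^ (N - k) * g.num ^ k, ?_⟩
  obtain ⟨m, rfl⟩ := Nat.exists_eq_add_of_le h
  simp only [Nat.add_sub_cancel_left, eq_intCast]
  push_cast
  rw [← Rat.den_mul_eq_num]
  ring

theorem core (n : ℕ) (ω : Fin (n + 1) → ℝ) (hω : ω 0 ≠ 0) {ι : Type} [Fintype ι]
    (g : ι → Fin (n + 1) → ℚ) (hg : ∀ j l, 0 < g j l)
    (hz : ∀ j, ∑ l, ω l * Real.log (g j l) = 0) :
    ∃ r : Fin (n + 1) → ℤ, r ≠ 0 ∧ ∀ J : Finset ι,
      LinearIndependent ℚ (fun j : J => ∑ l, (r l : ℝ) * Real.log (g j l)) →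
        J.card ≤ (n + 1) * 2 ^ (n + 1) := by
  classical
  obtain ⟨A, hA⟩ : ∃ A : ℝ, ∀ l, 1 + |ω l / ω 0| ≤ A :=
    ⟨1 + ∑ l, |ω l / ω 0|, fun l => by
      have := single_le_sum (f := fun l => |ω l / ω 0|) (fun _ _ => abs_nonneg _) (mem_univ l)
      linarith⟩
  obtain ⟨Z, hZ0, hZ⟩ : ∃ Z : ℝ, 0 < Z ∧ ∀ l, ∑ j, |Real.log (g j l)| ≤ Z :=
    ⟨1 + ∑ l, ∑ j, |Real.log (g j l)|, by positivity, fun l => by
      have := single_le_sum (f := fun l => ∑ j, |Real.log (g j l)|)
        (fun _ _ => by positivity) (mem_univ l)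
      linarith⟩
  have hA0 : 0 ≤ A := le_trans (by positivity) (hA 0)
  obtain ⟨Dn, hDn⟩ : ∃ Dn : ℕ, Dn = ∏ l, ∏ j, (g j l).den := ⟨_, rfl⟩
  have hDn0 : 0 < Dn := by
    rw [hDn]; exact prod_pos fun l _ => prod_pos fun j _ => (g j l).den_pos
  obtain ⟨c1, hc1, hc1'⟩ : ∃ c1 : ℕ, Dn ≤ c1 ∧ A * Z ≤ c1 :=
    ⟨Dn + ⌈A * Z⌉₊, by omega, by
      push_cast
      have := Nat.le_ceil (A * Z)
      have : (0 : ℝ) ≤ Dn := Nat.cast_nonneg _
      linarith⟩
  obtain ⟨S, hS0, hS1, hS2⟩ : ∃ S : ℕ, 1 ≤ S ∧ 2 * ((3 * n + 9) * ((n + 1) * c1)) ^ n ≤ S ∧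
      (2 * (n + 1)) ^ 2 ^ (n + 1) ≤ S :=
    ⟨1 + 2 * ((3 * n + 9) * ((n + 1) * c1)) ^ n + (2 * (n + 1)) ^ 2 ^ (n + 1),
      by omega, by omega, by omega⟩
  obtain ⟨T, hT⟩ : ∃ T : ℕ, T = S ^ (n + 1) := ⟨_, rfl⟩
  have hT0 : 1 ≤ T := by rw [hT]; exact Nat.one_le_pow _ _ hS0
  obtain ⟨U, hU⟩ : ∃ U : ℕ, U = (n + 1) * c1 * S * T := ⟨_, rfl⟩
  have hc10 : 1 ≤ c1 := by omega
  have hU0 : 1 ≤ U := by rw [hU]; exact Nat.mul_pos (Nat.mul_pos (by positivity) hS0) hT0
  obtain ⟨b, hb⟩ : ∃ b : ℝ, b = (n + 1) * S * Z := ⟨_, rfl⟩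
  have hS' : (0 : ℝ) < S := by exact_mod_cast hS0
  have hb0 : 0 < b := by rw [hb]; positivity
  let τ : (Fin (n + 1) → Fin (T + 1)) → Fin n → ℝ := fun t l =>
    (((t l.succ : ℕ) : ℝ) - ((t 0 : ℕ) : ℝ) * (ω l.succ / ω 0)) * b
  have htle : ∀ (t : Fin (n + 1) → Fin (T + 1)) l, ((t l : ℕ) : ℝ) ≤ T := fun t l => by
    exact_mod_cast Nat.lt_succ_iff.mp (t l).2
  obtain ⟨c, hc0, hc⟩ := small_values n U hU0 τ (by
    intro t l
    have h1 : |((t l.succ : ℕ) : ℝ) - ((t 0 : ℕ) : ℝ) * (ω l.succ / ω 0)| ≤ T * A := by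
      refine (abs_sub _ _).trans ?_
      rw [abs_mul, Nat.abs_cast, Nat.abs_cast]
      have h2 := mul_le_mul_of_nonneg_right (htle t 0) (abs_nonneg (ω l.succ / ω 0))
      have h3 := mul_le_mul_of_nonneg_left (hA l.succ) (Nat.cast_nonneg (α := ℝ) T)
      linarith [htle t l.succ]
    rw [abs_mul, abs_of_pos hb0]
    calc _ ≤ T * A * b := by gcongr
      _ = (n + 1) * (A * Z) * S * T := by rw [hb]; ring
      _ ≤ (n + 1) * c1 * S * T := by gcongr
      _ = U := by rw [hU]; push_cast; ring) (by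
    rw [Fintype.card_fun, Fintype.card_fin, Fintype.card_fin]
    calc 2 * ((3 * n + 9) * U) ^ n
        = 2 * ((3 * n + 9) * ((n + 1) * c1)) ^ n * (S ^ n * T ^ n) := by
          rw [hU, mul_assoc 2, ← mul_pow, ← mul_pow]; congr 2; ring
      _ ≤ S * (S ^ n * T ^ n) := Nat.mul_le_mul_right _ hS1
      _ = T ^ (n + 1) := by rw [pow_succ T, ← mul_assoc, ← pow_succ', ← hT, mul_comm]
      _ ≤ (T + 1) ^ (n + 1) := Nat.pow_le_pow_left (by omega) _) (by
    rw [Fintype.card_fun, Fintype.card_fin, Fintype.card_fin]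
    calc (T + 1) ^ (n + 1) ≤ (3 ^ T) ^ (n + 1) :=
          Nat.pow_le_pow_left (Nat.lt_pow_self (by norm_num)) _
      _ = 3 ^ ((n + 1) * 1 * 1 * T) := by rw [← pow_mul]; congr 1; ring
      _ ≤ 3 ^ U := Nat.pow_le_pow_right (by norm_num) (by rw [hU]; gcongr))
  let fs : (Fin (n + 1) → Fin (T + 1)) → (Fin (n + 1) →₀ ℕ) := fun t =>
    Finsupp.equivFunOnFinite.symm fun l => (t l : ℕ)
  have hfs : Function.Injective fs := by
    intro t t' h
    ext l
    exact congrArg (fun f => f l) h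
  let P : MvPolynomial (Fin (n + 1)) ℚ := ∑ t, MvPolynomial.monomial (fs t) (c t : ℚ)
  have hP0 : P ≠ 0 := by
    intro h
    apply hc0
    ext t
    have h1 := congrArg (MvPolynomial.coeff (fs t)) h
    simp only [P, MvPolynomial.coeff_sum, MvPolynomial.coeff_monomial, hfs.eq_iff,
      sum_ite_eq', mem_univ, if_true, MvPolynomial.coeff_zero] at h1
    exact_mod_cast h1
  have hPd : P.totalDegree ≤ (n + 1) * T := by
    refine MvPolynomial.totalDegree_finsetSum_le fun t _ => ?_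
    refine (MvPolynomial.totalDegree_monomial_le _ _).trans ?_
    rw [Finsupp.sum_fintype _ _ (fun _ => rfl)]
    refine (sum_le_card_nsmul _ _ T fun l _ => Nat.lt_succ_iff.mp (t l).2).trans ?_
    simp
  let γ : (ι → Fin (S + 1)) → Fin (n + 1) → ℚˣ := fun s l =>
    ∏ j, Units.mk0 (g j l) (hg j l).ne' ^ (s j : ℕ)
  obtain ⟨r, hr0, hr⟩ := zero_estimate (K := ℚ) (0 : ι → Fin (S + 1)) (n + 1) ((n + 1) * T) γ
    (Nat.mul_pos (by omega) hT0) (by ext l; simp [γ]) P hP0 hPd (by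
      intro s
      obtain ⟨σ, hσ⟩ : ∃ σ : ι → ℕ, ∀ j, σ j = ∑ i, (s i j : ℕ) := ⟨_, fun _ => rfl⟩
      have hσle : ∀ j, σ j ≤ (n + 1) * S := fun j => by
        rw [hσ]
        refine (sum_le_card_nsmul _ _ S fun i _ => Nat.lt_succ_iff.mp (s i j).2).trans ?_
        simp
      have hpt : ∀ l, (((∏ i, γ (s i)) l : ℚˣ) : ℚ) = ∏ j, g j l ^ σ j := by
        intro l
        simp only [γ, prod_apply, Units.coe_prod, Units.val_pow_eq_pow_val, Units.val_mk0]
        rw [prod_comm]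
        refine prod_congr rfl fun j _ => ?_
        rw [hσ, prod_pow_eq_pow_sum]
      have hev : MvPolynomial.eval (fun l => (((∏ i, γ (s i)) l : ℚˣ) : ℚ)) P =
          ∑ t, (c t : ℚ) * ∏ l, (∏ j, g j l ^ σ j) ^ (t l : ℕ) := by
        simp only [P, map_sum, MvPolynomial.eval_monomial, hpt]
        refine sum_congr rfl fun t _ => ?_
        rw [Finsupp.prod_fintype _ _ (by simp)]
        rfl
      rw [hev]
      obtain ⟨y, hy⟩ : ∃ y : Fin (n + 1) → ℝ, ∀ l, y l = ∑ j, σ j * Real.log (g j l) :=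
        ⟨_, fun _ => rfl⟩
      have hyω : ∑ l, ω l * y l = 0 := by
        simp only [hy, mul_sum]
        rw [sum_comm]
        refine sum_eq_zero fun j _ => ?_
        have := congrArg (fun x => (σ j : ℝ) * x) (hz j)
        simp only [mul_sum, mul_zero] at this
        rw [← this]
        exact sum_congr rfl fun l _ => by ring
      have hyb : ∀ l, |y l| ≤ b := by
        intro l
        rw [hy, hb]
        refine (abs_sum_le_sum_abs _ _).trans ?_
        calc ∑ j, |σ j * Real.log (g j l)| ≤ ∑ j, (n + 1) * S * |Real.log (g j l)| := by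
              refine sum_le_sum fun j _ => ?_
              rw [abs_mul, Nat.abs_cast]
              have : (σ j : ℝ) ≤ (n + 1) * S := by exact_mod_cast hσle j
              gcongr
          _ = (n + 1) * S * ∑ j, |Real.log (g j l)| := by rw [mul_sum]
          _ ≤ (n + 1) * S * Z := by gcongr; exact hZ l
      refine eq_zero_of_small _ (Dn ^ ((n + 1) * S * T)) (3 ^ U) (by positivity) ?_ ?_ ?_
      · have h1 : Dn ^ ((n + 1) * S * T) ≤ 3 ^ U :=
          calc Dn ^ ((n + 1) * S * T) ≤ (3 ^ c1) ^ ((n + 1) * S * T) :=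
                Nat.pow_le_pow_left (hc1.trans (Nat.lt_pow_self (by norm_num)).le) _
            _ = 3 ^ U := by rw [← pow_mul, hU]; congr 1; ring
        exact_mod_cast h1
      · rw [mul_sum]
        refine Subring.sum_mem _ fun t _ => ?_
        rw [mul_left_comm]
        refine Subring.mul_mem _ ⟨c t, rfl⟩ ?_
        rw [hDn]
        push_cast
        rw [← prod_pow, ← prod_mul_distrib]
        refine Subring.prod_mem _ fun l _ => ?_
        rw [← prod_pow, ← prod_pow, ← prod_mul_distrib]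
        refine Subring.prod_mem _ fun j _ => ?_
        rw [← pow_mul]
        exact den_pow_mul_mem _ _ _ (Nat.mul_le_mul (hσle j) (Nat.lt_succ_iff.mp (t l).2))
      · have h1 := hc (fun l => y l.succ / b) (fun l => by
          rw [abs_div, abs_of_pos hb0, div_le_one hb0]; exact hyb _)
        refine lt_of_eq_of_lt (congrArg _ ?_) h1
        push_cast
        refine sum_congr rfl fun t _ => ?_
        congr 1
        have h2 : ∑ l : Fin n, τ t l * (y l.succ / b) = ∑ l, (t l : ℕ) * y l := by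
          rw [Fin.sum_univ_succ] at hyω ⊢
          have h3 : y 0 = -∑ l : Fin n, ω l.succ / ω 0 * y l.succ := by
            have : ∑ l : Fin n, ω l.succ / ω 0 * y l.succ =
                (∑ l : Fin n, ω l.succ * y l.succ) / ω 0 := by
              rw [sum_div]; exact sum_congr rfl fun l _ => by ring
            rw [this]
            field_simp
            linarith
          rw [h3, mul_neg, mul_sum, neg_add_eq_sub, ← sum_sub_distrib]
          refine sum_congr rfl fun l _ => ?_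
          simp only [τ]
          field_simp
        rw [h2, Real.exp_sum]
        refine prod_congr rfl fun l _ => ?_
        rw [Real.exp_nat_mul, hy, Real.exp_sum]
        congr 1
        refine prod_congr rfl fun j _ => ?_
        rw [Real.exp_nat_mul, Real.exp_log (by exact_mod_cast hg j l)])
  refine ⟨r, hr0, fun J hJ => ?_⟩
  by_contra hlt
  have hlog : ∀ s : ι → Fin (S + 1), Real.log (((chi r (γ s) : ℚˣ) : ℚ) : ℝ) =
      ∑ j, (s j : ℕ) * ∑ l, (r l : ℝ) * Real.log (g j l) := by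
    intro s
    simp only [chi, γ, Units.coe_prod, Units.val_zpow_eq_zpow_val, Units.val_pow_eq_pow_val,
      Units.val_mk0]
    push_cast
    have hp : ∀ j l, (0 : ℝ) < g j l := fun j l => by exact_mod_cast hg j l
    rw [Real.log_prod fun l _ => zpow_ne_zero _
      (prod_ne_zero_iff.mpr fun j _ => pow_ne_zero _ (hp j l).ne')]
    simp only [mul_sum]
    rw [sum_comm]
    refine sum_congr rfl fun l _ => ?_
    rw [Real.log_zpow, Real.log_prod fun j _ => pow_ne_zero _ (hp j l).ne', mul_sum]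
    refine sum_congr rfl fun j _ => ?_
    rw [Real.log_pow]
    ring
  let ex : (J → Fin (S + 1)) → ι → Fin (S + 1) := fun u j => if h : j ∈ J then u ⟨j, h⟩ else 0
  have hex : ∀ u : J → Fin (S + 1), ∑ j, (ex u j : ℕ) * ∑ l, (r l : ℝ) * Real.log (g j l) =
      ∑ j : J, (u j : ℕ) * ∑ l, (r l : ℝ) * Real.log (g j l) := by
    intro u
    rw [← sum_subset (subset_univ J) (fun j _ hj => by simp [ex, hj]), ← sum_coe_sort J]
    refine sum_congr rfl fun j _ => ?_
    simp [ex]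
  have hinj : Function.Injective fun u : J → Fin (S + 1) => chi r (γ (ex u)) := by
    intro u v huv
    have h1 : ∑ j : J, (u j : ℕ) * ∑ l, (r l : ℝ) * Real.log (g j l) =
        ∑ j : J, (v j : ℕ) * ∑ l, (r l : ℝ) * Real.log (g j l) := by
      rw [← hex, ← hex, ← hlog, ← hlog]
      exact congrArg (fun x : ℚˣ => Real.log ((x : ℚ) : ℝ)) huv
    have h2 := Fintype.linearIndependent_iff.mp hJ (fun j => ((u j : ℕ) : ℚ) - ((v j : ℕ) : ℚ)) (by
      rw [← sub_eq_zero, ← sum_sub_distrib] at h1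
      rw [← h1]
      refine sum_congr rfl fun j _ => ?_
      rw [Rat.smul_def]
      push_cast
      ring)
    ext j
    have := h2 j
    rw [sub_eq_zero] at this
    exact_mod_cast this
  have hcard : (S + 1) ^ J.card ≤ (univ.image fun i => chi r (γ i)).card := by
    have := card_le_card_of_injOn (s := (univ : Finset (J → Fin (S + 1))))
      (t := univ.image fun i => chi r (γ i)) (fun u => chi r (γ (ex u)))
      (fun u _ => by simp) hinj.injOn
    simpa using this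
  have h3 : (2 * ((n + 1) * T)) ^ 2 ^ (n + 1) ≤ (S + 1) ^ J.card :=
    calc (2 * ((n + 1) * T)) ^ 2 ^ (n + 1)
        = (2 * (n + 1)) ^ 2 ^ (n + 1) * S ^ ((n + 1) * 2 ^ (n + 1)) := by
          rw [← mul_assoc, mul_pow, hT, ← pow_mul]
      _ ≤ S * S ^ ((n + 1) * 2 ^ (n + 1)) := Nat.mul_le_mul_right _ hS2
      _ = S ^ ((n + 1) * 2 ^ (n + 1) + 1) := (pow_succ' _ _).symm
      _ ≤ (S + 1) ^ ((n + 1) * 2 ^ (n + 1) + 1) := Nat.pow_le_pow_left (by omega) _
      _ ≤ (S + 1) ^ J.card := Nat.pow_le_pow_right (by omega) (by omega)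
  have h4 : 0 < (S + 1) ^ J.card := by positivity
  omega

end Pool.Agent.MP_d171e3_nt
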