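import Pool.Agent.MP_d171e3_nt.Core

/-! Only boundedly many logarithms of primes are quotients of elements of two
finite-dimensional rational vector spaces of reals. -/

namespace Pool.Agent.MP_d171e3_nt

open Finset

/-- The rational vector space of rational multiples of logarithms of positive rationals. -/
def LogSp : Submodule ℚ ℝ where
  carrier := {z | ∃ N : ℕ, 0 < N ∧ ∃ g : ℚ, 0 < g ∧ Real.log g = N * z}
  zero_mem' := ⟨1, one_pos, 1, one_pos, by simp⟩
  add_mem' := by
    rintro a b ⟨N, hN, g, hg, e⟩ ⟨N', hN', g', hg', e'⟩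
    refine ⟨N * N', by positivity, g ^ N' * g' ^ N, by positivity, ?_⟩
    have h1 : (0 : ℝ) < g := by exact_mod_cast hg
    have h2 : (0 : ℝ) < g' := by exact_mod_cast hg'
    push_cast
    rw [Real.log_mul (by positivity) (by positivity), Real.log_pow, Real.log_pow, e, e']
    ring
  smul_mem' := by
    rintro q a ⟨N, hN, g, hg, e⟩
    refine ⟨N * q.den, Nat.mul_pos hN q.den_pos, g ^ q.num, by positivity, ?_⟩
    push_cast
    rw [Real.log_zpow, e, Rat.smul_def]
    have : (q.num : ℝ) = q.den * q := by exact_mod_cast (Rat.den_mul_eq_num q).symm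
    rw [this]
    ring

lemma log_nat_mem {p : ℕ} (hp : 0 < p) : Real.log p ∈ LogSp :=
  ⟨1, one_pos, p, by exact_mod_cast hp, by simp⟩

lemma exists_common {κ : Type*} [Fintype κ] (z : κ → ℝ) (hz : ∀ k, z k ∈ LogSp) :
    ∃ N : ℕ, 0 < N ∧ ∃ g : κ → ℚ, (∀ k, 0 < g k) ∧ ∀ k, Real.log (g k) = N * z k := by
  classical
  choose N hN g hg e using hz
  refine ⟨∏ k, N k, prod_pos fun k _ => hN k, fun k => g k ^ ∏ k' ∈ univ.erase k, N k',
    fun k => pow_pos (hg k) _, fun k => ?_⟩
  rw [← mul_prod_erase univ N (mem_univ k)]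
  push_cast
  rw [Real.log_pow, e]
  push_cast
  ring

theorem core' (n : ℕ) (ω : Fin (n + 1) → ℝ) (hω : ω 0 ≠ 0) {ι : Type} [Fintype ι]
    (z : ι → Fin (n + 1) → ℝ) (hz : ∀ j l, z j l ∈ LogSp) (h0 : ∀ j, ∑ l, ω l * z j l = 0) :
    ∃ r : Fin (n + 1) → ℤ, r ≠ 0 ∧ ∀ J : Finset ι,
      LinearIndependent ℚ (fun j : J => ∑ l, (r l : ℝ) * z j l) →
        J.card ≤ (n + 1) * 2 ^ (n + 1) := by
  obtain ⟨N, hN, g, hg, e⟩ := exists_common (fun k : ι × Fin (n + 1) => z k.1 k.2)
    fun k => hz _ _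
  obtain ⟨r, hr0, hr⟩ := core n ω hω (fun j l => g (j, l)) (fun j l => hg _) (fun j => by
    have := congrArg (fun x => (N : ℝ) * x) (h0 j)
    simp only [mul_sum, mul_zero] at this
    rw [← this]
    exact sum_congr rfl fun l _ => by rw [e]; ring)
  refine ⟨r, hr0, fun J hJ => hr J ?_⟩
  rw [Fintype.linearIndependent_iff] at hJ ⊢
  intro μ hμ j
  have hN' : (N : ℚ) ≠ 0 := by exact_mod_cast hN.ne'
  refine (mul_eq_zero.mp (hJ (fun j => μ j * N) ?_ j)).resolve_right hN'
  rw [← hμ]
  refine sum_congr rfl fun j _ => ?_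
  simp only [Rat.smul_def, e, mul_sum]
  push_cast
  exact sum_congr rfl fun l _ => by ring

lemma int_rel {S : Finset ℕ} (hS : ∀ p ∈ S, p.Prime) (k : ℕ → ℤ)
    (h : ∑ p ∈ S, (k p : ℝ) * Real.log p = 0) : ∀ p ∈ S, k p = 0 := by
  have hp0 : ∀ p ∈ S, (0 : ℝ) < p := fun p hp => by exact_mod_cast (hS p hp).pos
  have e : ∀ f : ℕ → ℕ, Real.log ((∏ p ∈ S, p ^ f p : ℕ) : ℝ) = ∑ p ∈ S, f p * Real.log p := by
    intro f
    push_cast
    rw [Real.log_prod fun p hp => pow_ne_zero _ (hp0 p hp).ne']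
    exact sum_congr rfl fun p _ => Real.log_pow _ _
  have hne : ∀ f : ℕ → ℕ, 0 < ∏ p ∈ S, p ^ f p := fun f =>
    prod_pos fun p hp => pow_pos (hS p hp).pos _
  have h1 : ∏ p ∈ S, p ^ (k p).toNat = ∏ p ∈ S, p ^ (-k p).toNat := by
    have h2 : Real.log ((∏ p ∈ S, p ^ (k p).toNat : ℕ) : ℝ) =
        Real.log ((∏ p ∈ S, p ^ (-k p).toNat : ℕ) : ℝ) := by
      rw [e, e, ← sub_eq_zero, ← sum_sub_distrib, ← h]
      refine sum_congr rfl fun p _ => ?_
      rw [← sub_mul]
      congr 1
      exact_mod_cast Int.toNat_sub_toNat_neg (k p)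
    exact_mod_cast Real.log_injOn_pos (Set.mem_Ioi.mpr (by exact_mod_cast hne _))
      (Set.mem_Ioi.mpr (by exact_mod_cast hne _)) h2
  have e2 : ∀ f : ℕ → ℕ, ∀ p ∈ S, (∏ q ∈ S, q ^ f q).factorization p = f p := by
    intro f p hp
    rw [Nat.factorization_prod fun q hq => pow_ne_zero _ (hS q hq).ne_zero, 
      Finsupp.finsetSum_apply, sum_eq_single p]
    · rw [(hS p hp).factorization_pow, Finsupp.single_eq_same]
    · intro q hq hqp
      rw [(hS q hq).factorization_pow, Finsupp.single_eq_of_ne hqp.symm]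
    · exact fun h => absurd hp h
  intro p hp
  have h3 := e2 (fun p => (k p).toNat) p hp
  rw [h1, e2 _ p hp] at h3
  omega

lemma linearIndependent_log :
    LinearIndependent ℚ fun p : {p : ℕ // p.Prime} => Real.log (p : ℕ) := by
  classical
  rw [← LinearIndependent.iff_fractionRing ℤ ℚ, linearIndependent_iff']
  intro s k h p hp
  let k' : ℕ → ℤ := fun q => if hq : q.Prime then k ⟨q, hq⟩ else 0
  have h1 := int_rel (S := s.image Subtype.val) (by
      intro q hq
      obtain ⟨q', -, rfl⟩ := mem_image.mp hq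
      exact q'.2) k' (by
      rw [sum_image fun a _ b _ hab => Subtype.ext hab, ← h]
      refine sum_congr rfl fun q _ => ?_
      have : k' q = k q := by simp [k', q.2]
      rw [this, zsmul_eq_mul]) p (mem_image_of_mem _ hp)
  simpa [k', p.2] using h1

lemma exists_dual (p : ℕ) (hp : p.Prime) :
    ∃ ψ : ℝ →ₗ[ℚ] ℚ, ψ (Real.log p) = 1 ∧ ∀ q : ℕ, q.Prime → q ≠ p → ψ (Real.log q) = 0 := by
  obtain ⟨ψ, hψ⟩ := LinearMap.exists_extend
    ((Finsupp.lapply (⟨p, hp⟩ : {p : ℕ // p.Prime})).comp linearIndependent_log.repr)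
  have key : ∀ q : {p : ℕ // p.Prime}, ψ (Real.log (q : ℕ)) =
      Finsupp.single q (1 : ℚ) (⟨p, hp⟩ : {p : ℕ // p.Prime}) := by
    intro q
    have h1 := LinearMap.congr_fun hψ
      ⟨Real.log (q : ℕ), Submodule.subset_span (Set.mem_range_self q)⟩
    rw [LinearMap.comp_apply, LinearMap.comp_apply,
      linearIndependent_log.repr_eq_single q _ rfl] at h1
    exact h1
  refine ⟨ψ, ?_, fun q hq hqp => ?_⟩
  · rw [key ⟨p, hp⟩, Finsupp.single_eq_same]
  · rw [key ⟨q, hq⟩, Finsupp.single_eq_of_ne fun h => hqp (congrArg Subtype.val h).symm]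

theorem count_bound (n d : ℕ) : ∃ C : ℕ, ∀ X Y : Submodule ℚ ℝ, FiniteDimensional ℚ X →
    FiniteDimensional ℚ Y → Module.finrank ℚ X ≤ d → Module.finrank ℚ Y ≤ n →
    ∀ S : Finset ℕ, (∀ p ∈ S, p.Prime ∧ ∃ x ∈ X, x ≠ 0 ∧ x * Real.log p ∈ Y) → S.card ≤ C := by
  classical
  induction d with
  | zero =>
    refine ⟨0, fun X Y _ _ hX _ S hS => ?_⟩
    rw [Nat.le_zero, Submodule.finrank_eq_zero] at hX
    rw [Nat.le_zero, card_eq_zero, eq_empty_iff_forall_notMem]
    intro p hp
    obtain ⟨-, x, hx, hx0, -⟩ := hS p hp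
    rw [hX] at hx
    exact hx0 hx
  | succ d ih =>
    obtain ⟨C, hC⟩ := ih
    refine ⟨C + n + (d + 1) * 2 ^ (d + 1), fun X Y hXf hYf hX hY S hS => ?_⟩
    by_cases hX' : Module.finrank ℚ X ≤ d
    · have := hC X Y hXf hYf hX' hY S hS
      omega
    have hXd : Module.finrank ℚ X = d + 1 := by omega
    let ω := Module.finBasisOfFinrankEq ℚ X hXd
    have hpr : ∀ p : S, (p : ℕ).Prime := fun p => (hS p p.2).1
    choose x hxX hx0 hxY using fun p : S => (hS p p.2).2
    let y : S → Y := fun p => ⟨_, hxY p⟩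
    obtain ⟨B₀, -, -, hB₁, hB₂⟩ := exists_linearIndepOn_extension
      (linearIndepOn_empty ℚ y) (Set.empty_subset Set.univ)
    let B : Finset S := B₀.toFinset
    have hBcard : B.card ≤ n := by
      have h1 := LinearIndependent.fintype_card_le_finrank hB₂
      rw [Set.toFinset_card]
      exact h1.trans hY
    have hrel : ∀ p : S, ∃ a : S → ℚ, ∑ q ∈ B, a q • y q = y p := by
      intro p
      have h1 : y p ∈ Submodule.span ℚ (y '' (B : Set S)) := by
        rw [Set.coe_toFinset]
        exact hB₁ ⟨p, trivial, rfl⟩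
      exact (Submodule.mem_span_image_finset_iff_exists_fun' ℚ).mp h1
    choose a ha using hrel
    let b : S → Fin (d + 1) → ℚ := fun p l => ω.repr ⟨x p, hxX p⟩ l
    have hb : ∀ p, ∑ l, (ω l : ℝ) * b p l = x p := by
      intro p
      have h1 := congrArg Subtype.val (ω.sum_repr ⟨x p, hxX p⟩)
      rw [Submodule.coe_sum] at h1
      rw [← show _ = x p from h1]
      refine sum_congr rfl fun l _ => ?_
      rw [Submodule.coe_smul, Rat.smul_def, mul_comm]
    let z : S → Fin (d + 1) → ℝ := fun p l =>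
      b p l • Real.log (p : ℕ) - ∑ q ∈ B, (a p q * b q l) • Real.log (q : ℕ)
    obtain ⟨r, hr0, hr⟩ := core' d (fun l => (ω l : ℝ))
      (fun h => ω.ne_zero 0 (Subtype.ext h)) z (fun p l =>
        Submodule.sub_mem _ (Submodule.smul_mem _ _ (log_nat_mem (hpr p).pos))
          (Submodule.sum_mem _ fun q _ => Submodule.smul_mem _ _ (log_nat_mem (hpr q).pos))) (by
      intro p
      have h1 := congrArg Subtype.val (ha p)
      rw [Submodule.coe_sum] at h1
      simp only [y, Submodule.coe_smul, Rat.smul_def] at h1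
      simp only [z, mul_sub, sum_sub_distrib, mul_sum, Rat.smul_def]
      rw [sum_comm, sub_eq_zero]
      have h2 : ∑ l, (ω l : ℝ) * (b p l * Real.log (p : ℕ)) = x p * Real.log (p : ℕ) := by
        rw [← hb, sum_mul]
        exact sum_congr rfl fun l _ => by ring
      rw [h2, ← h1]
      refine sum_congr rfl fun q _ => ?_
      rw [← hb, sum_mul, mul_sum]
      refine sum_congr rfl fun l _ => ?_
      push_cast
      ring)
    let φ : X →ₗ[ℚ] ℚ := ∑ l, (r l : ℚ) • ω.coord l
    have hφ : ∀ p, φ ⟨x p, hxX p⟩ = ∑ l, (r l : ℚ) * b p l := by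
      intro p
      simp [φ, b]
    have hφ0 : φ ≠ 0 := by
      intro h
      apply hr0
      ext l
      have h1 := LinearMap.congr_fun h (ω l)
      simp only [φ, LinearMap.coe_sum, Finset.sum_apply, LinearMap.smul_apply,
        Module.Basis.coord_apply, Module.Basis.repr_self, Finsupp.single_apply, smul_eq_mul,
        mul_ite, mul_one, mul_zero, sum_ite_eq, mem_univ, if_true, LinearMap.zero_apply] at h1
      exact_mod_cast h1
    have hker : Module.finrank ℚ ((LinearMap.ker φ).map X.subtype) ≤ d := by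
      rw [Submodule.finrank_map_subtype_eq]
      have := Module.Dual.finrank_ker_add_one_of_ne_zero hφ0
      omega
    let S₀ : Finset S := univ.filter fun p => φ ⟨x p, hxX p⟩ = 0
    have hS₀ : S₀.card ≤ C := by
      rw [← card_image_of_injective S₀ Subtype.val_injective]
      refine hC _ Y inferInstance hYf hker hY _ fun p hp => ?_
      obtain ⟨p, hp', rfl⟩ := mem_image.mp hp
      exact ⟨hpr p, x p, ⟨⟨x p, hxX p⟩, (mem_filter.mp hp').2, rfl⟩, hx0 p, hxY p⟩
    have hJ := hr (univ \ (S₀ ∪ B)) (by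
      rw [Fintype.linearIndependent_iff]
      intro μ hμ j
      have hj := (mem_sdiff.mp j.2).2
      rw [mem_union, not_or] at hj
      obtain ⟨ψ, hψ1, hψ2⟩ := exists_dual _ (hpr j)
      have hval : ∀ p : S, ψ (∑ l, (r l : ℝ) * z p l) =
          if p = j then φ ⟨x p, hxX p⟩ else 0 := by
        intro p
        have h1 : ∀ l, ψ (z p l) = if p = j then b p l else 0 := by
          intro l
          simp only [z, map_sub, map_sum, map_smul]
          rw [sum_eq_zero fun q hq => by
            rw [hψ2 q (hpr q) fun h => hj.2 (Subtype.ext h ▸ hq), smul_zero], sub_zero]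
          split_ifs with h
          · rw [h, hψ1, smul_eq_mul, mul_one]
          · rw [hψ2 p (hpr p) fun h' => h (Subtype.ext h'), smul_zero]
        rw [map_sum, hφ]
        simp only [← zsmul_eq_mul, map_zsmul, h1]
        split_ifs <;> simp
      have h2 := congrArg ψ hμ
      rw [map_sum, map_zero, sum_eq_single j] at h2
      · rw [map_smul, hval, if_pos rfl, smul_eq_mul] at h2
        exact (mul_eq_zero.mp h2).resolve_right fun h => hj.1 (mem_filter.mpr ⟨mem_univ _, h⟩)
      · intro i _ hij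
        rw [map_smul, hval, if_neg fun h => hij (Subtype.ext h), smul_zero]
      · exact fun h => absurd (mem_univ _) h)
    have h3 := card_sdiff_add_card_eq_card (subset_univ (S₀ ∪ B))
    have h4 := card_union_le S₀ B
    rw [card_univ, Fintype.card_coe] at h3
    omega

end Pool.Agent.MP_d171e3_nt
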