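import Mathlib

/-! Multi-affine independence of logarithms of primes. -/

namespace Pool.Agent.MP_d171e3_nt

open MvPolynomial

/-- No nonzero polynomial in the variables `z q` (`q ∈ P`), of degree at most one in each variable
and with coefficients in `B`, vanishes at `z q = ln q`. -/
def MultiAffineIndep (B : Submodule ℚ ℂ) (P : Set ℕ) : Prop :=
  ∀ F : MvPolynomial ℕ ℂ, (∀ a, coeff a F ∈ B) → (∀ q, degreeOf q F ≤ 1) → (∀ q ∈ F.vars, q ∈ P) →
    eval (fun q : ℕ => (Real.log q : ℂ)) F = 0 → F = 0

end Pool.Agent.MP_d171e3_nt
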