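import Mathlib

/-! Elimination of one variable by a resultant, with a degree bound. -/

namespace Pool.Agent.MP_d171e3_nt

open Polynomial

lemma resultant_ne_zero_of_isRelPrime {R : Type*} [CommRing R] [IsDomain R]
    [UniqueFactorizationMonoid R] (f g : R[X]) (hf : f ≠ 0) (h : IsRelPrime f g) :
    resultant f g ≠ 0 := by
  intro h0
  unfold resultant at h0
  obtain ⟨v, hv0, hv⟩ := Matrix.exists_mulVec_eq_zero_iff.mpr h0
  let b₁ := ((degreeLT.basis R f.natDegree).prod (degreeLT.basis R g.natDegree)).reindex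
    finSumFinEquiv
  let b₂ := degreeLT.basis R (f.natDegree + g.natDegree)
  let x := b₁.equivFun.symm v
  have hx : b₁.repr x = v := by
    have : b₁.equivFun x = v := b₁.equivFun.apply_symm_apply v
    rw [← this]; rfl
  have h1 : sylvesterMap f g le_rfl le_rfl x = 0 := by
    have h2 := LinearMap.toMatrix_mulVec_repr b₁ b₂ (sylvesterMap f g le_rfl le_rfl) x
    rw [toMatrix_sylvesterMap', hx, hv] at h2
    apply b₂.repr.injective
    rw [map_zero]
    ext i
    exact (congrFun h2 i).symm
  have h3 : f * (x.2 : R[X]) + g * (x.1 : R[X]) = 0 := congrArg Subtype.val h1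
  have h4 : f ∣ g * (x.1 : R[X]) := ⟨-(x.2 : R[X]), by linear_combination h3⟩
  have h5 : f ∣ (x.1 : R[X]) := h.dvd_of_dvd_mul_left h4
  have h6 : (x.1 : R[X]) = 0 := by
    apply eq_zero_of_dvd_of_degree_lt h5
    have := x.1.2
    rw [mem_degreeLT] at this
    rwa [degree_eq_natDegree hf]
  have h7 : (x.2 : R[X]) = 0 := by
    rw [h6, mul_zero, add_zero] at h3
    exact (mul_eq_zero.mp h3).resolve_left hf
  have h8 : x = 0 := Prod.ext (Subtype.ext h6) (Subtype.ext h7)
  apply hv0
  rw [← hx, h8, map_zero]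
  rfl

lemma totalDegree_det_le {K : Type*} [Field K] {σ : Type*} {n : Type*} [Fintype n] [DecidableEq n]
    (A : Matrix n n (MvPolynomial σ K)) (T : ℕ) (h : ∀ i j, (A i j).totalDegree ≤ T) :
    A.det.totalDegree ≤ Fintype.card n * T := by
  rw [Matrix.det_apply']
  refine MvPolynomial.totalDegree_finsetSum_le fun s _ => ?_
  refine (MvPolynomial.totalDegree_mul _ _).trans ?_
  have h1 : (((Equiv.Perm.sign s : ℤ) : MvPolynomial σ K)).totalDegree = 0 := by
    rw [← map_intCast (MvPolynomial.C : K →+* MvPolynomial σ K), MvPolynomial.totalDegree_C]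
  rw [h1, zero_add]
  refine (MvPolynomial.totalDegree_finsetProd _ _).trans ?_
  refine (Finset.sum_le_card_nsmul _ _ T fun i _ => h _ _).trans ?_
  simp

/-- Elimination of the main variable. -/
lemma exists_eliminant {K : Type*} [Field K] {d : ℕ} (f g : (MvPolynomial (Fin d) K)[X])
    (hf : f ≠ 0) (h : IsRelPrime f g) (T : ℕ) (hT : 1 ≤ T) (hfd : f.natDegree ≤ T)
    (hgd : g.natDegree ≤ T) (hfc : ∀ i, (f.coeff i).totalDegree ≤ T)
    (hgc : ∀ i, (g.coeff i).totalDegree ≤ T) :
    ∃ ρ : MvPolynomial (Fin d) K, ρ ≠ 0 ∧ ρ.totalDegree ≤ 2 * T ^ 2 ∧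
      ∃ a b, f * a + g * b = C ρ := by
  by_cases h0 : f.natDegree = 0
  · refine ⟨f.coeff 0, ?_, (hfc 0).trans (by nlinarith), 1, 0, ?_⟩
    · intro h1
      apply hf
      rw [eq_C_of_natDegree_eq_zero h0, h1, map_zero]
    · rw [mul_one, mul_zero, add_zero]
      exact eq_C_of_natDegree_eq_zero h0
  · refine ⟨resultant f g, resultant_ne_zero_of_isRelPrime f g hf h, ?_, ?_⟩
    · unfold resultant
      refine (totalDegree_det_le _ T ?_).trans ?_
      · intro i j
        induction j using Fin.addCases with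
        | left j =>
          simp only [sylvester, Matrix.of_apply, Fin.addCases_left]
          split_ifs
          · exact hgc _
          · simp
        | right j =>
          simp only [sylvester, Matrix.of_apply, Fin.addCases_right]
          split_ifs
          · exact hfc _
          · simp
      · rw [Fintype.card_fin]
        nlinarith
    · obtain ⟨p, q, -, -, e⟩ := exists_mul_add_mul_eq_C_resultant f g le_rfl le_rfl (Or.inl h0)
      exact ⟨p, q, e⟩

end Pool.Agent.MP_d171e3_nt
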