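import Pool.Agent.MP_d171e3_nt.Count

/-! Multilinear relations between logarithms of primes. -/

namespace Pool.Agent.MP_d171e3_nt

open Finset

/-- Some nonzero multilinear polynomial with coefficients in `V` vanishes at the logarithms. -/
def Rel (V : Submodule ℚ ℝ) {k : ℕ} (p : Fin k → ℕ) : Prop :=
  ∃ F : MvPolynomial (Fin k) ℝ, F ≠ 0 ∧ (∀ t, F.coeff t ∈ V) ∧ (∀ i, F.degreeOf i ≤ 1) ∧
    MvPolynomial.eval (fun i => Real.log (p i)) F = 0

/-- The space `V + x V`. -/
noncomputable def ext (V : Submodule ℚ ℝ) (x : ℝ) : Submodule ℚ ℝ :=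
  V ⊔ V.map (LinearMap.mulLeft ℚ x)

lemma not_rel_zero (V : Submodule ℚ ℝ) (p : Fin 0 → ℕ) : ¬ Rel V p := by
  rintro ⟨F, hF, -, -, h⟩
  apply hF
  rw [MvPolynomial.eq_C_of_isEmpty F] at h ⊢
  rw [MvPolynomial.eval_C] at h
  rw [h, map_zero]

lemma rel_cons (V : Submodule ℚ ℝ) {k : ℕ} (q : ℕ) (p : Fin k → ℕ)
    (h : Rel V (Fin.cons q p : Fin (k + 1) → ℕ)) :
    (∃ x ∈ V, x ≠ 0 ∧ x * Real.log q ∈ V) ∨ Rel (ext V (Real.log q)) p := by
  obtain ⟨F, hF, hV, hd, hev⟩ := h
  set f := MvPolynomial.finSuccEquiv ℝ k F with hf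
  have hf1 : f = Polynomial.C (f.coeff 1) * Polynomial.X + Polynomial.C (f.coeff 0) := by
    apply Polynomial.eq_X_add_C_of_natDegree_le_one
    rw [hf, MvPolynomial.natDegree_finSuccEquiv]
    exact hd 0
  have hc : ∀ i t, (f.coeff i).coeff t ∈ V := fun i t => by
    rw [hf, MvPolynomial.finSuccEquiv_coeff_coeff]; exact hV _
  have hdeg : ∀ i j, (f.coeff i).degreeOf j ≤ 1 := fun i j =>
    (MvPolynomial.degreeOf_coeff_finSuccEquiv F j i).trans (hd _)
  by_cases hG : MvPolynomial.C (Real.log q) * f.coeff 1 + f.coeff 0 = 0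
  · left
    have h1 : f.coeff 1 ≠ 0 := by
      intro h1
      rw [h1, mul_zero, zero_add] at hG
      rw [h1, hG] at hf1
      apply hF
      apply (MvPolynomial.finSuccEquiv ℝ k).injective
      rw [← hf, hf1]
      simp
    obtain ⟨t, ht⟩ := MvPolynomial.ne_zero_iff.mp h1
    refine ⟨_, hc 1 t, ht, ?_⟩
    have h2 := congrArg (MvPolynomial.coeff t) hG
    rw [MvPolynomial.coeff_add, MvPolynomial.coeff_C_mul, MvPolynomial.coeff_zero] at h2
    have h3 : (f.coeff 1).coeff t * Real.log q = -(f.coeff 0).coeff t := by linarith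
    rw [h3]
    exact V.neg_mem (hc 0 t)
  · right
    refine ⟨_, hG, fun t => ?_, fun j => ?_, ?_⟩
    · rw [MvPolynomial.coeff_add, MvPolynomial.coeff_C_mul]
      exact Submodule.add_mem _ (Submodule.mem_sup_right ⟨_, hc 1 t, rfl⟩)
        (Submodule.mem_sup_left (hc 0 t))
    · exact (MvPolynomial.degreeOf_add_le _ _ _).trans
        (max_le ((MvPolynomial.degreeOf_C_mul_le _ _ _).trans (hdeg 1 j)) (hdeg 0 j))
    · have h1 : (fun i => Real.log ((Fin.cons q p : Fin (k + 1) → ℕ) i)) =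
          Fin.cons (Real.log q) fun i => Real.log (p i) := by
        ext i
        exact Fin.cases rfl (fun _ => rfl) i
      rw [h1, MvPolynomial.eval_eq_eval_mv_eval', ← hf, hf1] at hev
      simp only [Polynomial.map_add, Polynomial.map_mul, Polynomial.map_C, Polynomial.map_X,
        Polynomial.eval_add, Polynomial.eval_mul, Polynomial.eval_C, Polynomial.eval_X] at hev
      rw [map_add, map_mul, MvPolynomial.eval_C, mul_comm]
      exact hev

open Classical in
lemma card_step (V : Submodule ℚ ℝ) (P : Finset ℕ) (k : ℕ) :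
    ((Fintype.piFinset fun _ : Fin (k + 1) => P).filter (Rel V)).card ≤
      (P.filter fun q : ℕ => ∃ x ∈ V, x ≠ 0 ∧ x * Real.log q ∈ V).card * P.card ^ k +
      ∑ q ∈ P, ((Fintype.piFinset fun _ : Fin k => P).filter (Rel (ext V (Real.log q)))).card := by
  let E := P.filter fun q : ℕ => ∃ x ∈ V, x ≠ 0 ∧ x * Real.log q ∈ V
  let A : Finset (Fin (k + 1) → ℕ) := E.biUnion fun q =>
    (Fintype.piFinset fun _ : Fin k => P).image (Fin.cons q)
  let B : Finset (Fin (k + 1) → ℕ) := P.biUnion fun q =>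
    ((Fintype.piFinset fun _ : Fin k => P).filter (Rel (ext V (Real.log q)))).image (Fin.cons q)
  have hsub : (Fintype.piFinset fun _ : Fin (k + 1) => P).filter (Rel V) ⊆ A ∪ B := by
    intro p hp
    rw [mem_filter, Fintype.mem_piFinset] at hp
    have ht : Fin.tail p ∈ Fintype.piFinset fun _ : Fin k => P :=
      Fintype.mem_piFinset.mpr fun i => hp.1 _
    have h := hp.2
    rw [← Fin.cons_self_tail p] at h
    rcases rel_cons V _ _ h with h | h
    · exact mem_union_left _ (mem_biUnion.mpr ⟨p 0, mem_filter.mpr ⟨hp.1 0, h⟩,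
        mem_image.mpr ⟨_, ht, Fin.cons_self_tail p⟩⟩)
    · exact mem_union_right _ (mem_biUnion.mpr ⟨p 0, hp.1 0,
        mem_image.mpr ⟨_, mem_filter.mpr ⟨ht, h⟩, Fin.cons_self_tail p⟩⟩)
  refine (card_le_card hsub).trans ((card_union_le _ _).trans (add_le_add ?_ ?_))
  · refine card_biUnion_le_card_mul _ _ _ fun q _ => card_image_le.trans ?_
    simp
  · exact card_biUnion_le.trans (sum_le_sum fun q _ => card_image_le)

open Classical in
theorem card_rel_le (k : ℕ) : ∀ n : ℕ, ∃ C : ℕ, ∀ V : Submodule ℚ ℝ, FiniteDimensional ℚ V →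
    Module.finrank ℚ V ≤ n → ∀ P : Finset ℕ, (∀ p ∈ P, p.Prime) →
    ((Fintype.piFinset fun _ : Fin (k + 1) => P).filter (Rel V)).card ≤ C * P.card ^ k := by
  have hfd : ∀ (V : Submodule ℚ ℝ) (x : ℝ), FiniteDimensional ℚ V →
      FiniteDimensional ℚ (ext V x) := fun V x _ => by
    unfold ext; infer_instance
  have hrk : ∀ (V : Submodule ℚ ℝ) (x : ℝ) (n : ℕ), FiniteDimensional ℚ V →
      Module.finrank ℚ V ≤ n → Module.finrank ℚ (ext V x) ≤ 2 * n := fun V x n _ h => by
    have h1 := Submodule.finrank_add_le_finrank_add_finrank V (V.map (LinearMap.mulLeft ℚ x))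
    have h2 := Submodule.finrank_map_le (LinearMap.mulLeft ℚ x) V
    unfold ext
    omega
  have hE : ∀ n : ℕ, ∃ C : ℕ, ∀ V : Submodule ℚ ℝ, FiniteDimensional ℚ V →
      Module.finrank ℚ V ≤ n → ∀ P : Finset ℕ, (∀ p ∈ P, p.Prime) →
      (P.filter fun q : ℕ => ∃ x ∈ V, x ≠ 0 ∧ x * Real.log q ∈ V).card ≤ C := fun n => by
    obtain ⟨C, hC⟩ := count_bound n n
    exact ⟨C, fun V hV h P hP => hC V V hV hV h h _ fun p hp =>
      ⟨hP p (mem_filter.mp hp).1, (mem_filter.mp hp).2⟩⟩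
  induction k with
  | zero =>
    intro n
    obtain ⟨C, hC⟩ := hE n
    refine ⟨C, fun V hV h P hP => (card_step V P 0).trans ?_⟩
    rw [sum_eq_zero fun q _ => card_eq_zero.mpr
      (filter_eq_empty_iff.mpr fun p _ => not_rel_zero _ p), add_zero]
    exact Nat.mul_le_mul_right _ (hC V hV h P hP)
  | succ k ih =>
    intro n
    obtain ⟨C, hC⟩ := hE n
    obtain ⟨C', hC'⟩ := ih (2 * n)
    refine ⟨C + C', fun V hV h P hP => (card_step V P (k + 1)).trans ?_⟩
    rw [add_mul]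
    refine add_le_add (Nat.mul_le_mul_right _ (hC V hV h P hP)) ?_
    refine (sum_le_card_nsmul _ _ (C' * P.card ^ k) fun q _ =>
      hC' _ (hfd V _ hV) (hrk V _ n hV h) P hP).trans (le_of_eq ?_)
    rw [smul_eq_mul]
    ring

end Pool.Agent.MP_d171e3_nt
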