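import Pool.Agent.MP_d171e3_nt.Elim

/-! An elementary zero estimate on a torus. -/

namespace Pool.Agent.MP_d171e3_nt

open MvPolynomial

variable {K : Type*} [Field K] {d : ℕ}

/-- Rescaling of the variables. -/
noncomputable def sc (σ : Fin d → Kˣ) : MvPolynomial (Fin d) K →ₐ[K] MvPolynomial (Fin d) K :=
  aeval (fun i => C (σ i : K) * X i)

lemma sc_monomial (σ : Fin d → Kˣ) (t : Fin d →₀ ℕ) (c : K) :
    sc σ (monomial t c) = monomial t ((∏ i, (σ i : K) ^ t i) * c) := by
  rw [sc, aeval_monomial, Finsupp.prod_fintype _ _ (by simp), monomial_eq,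
    Finsupp.prod_fintype _ _ (by simp)]
  simp only [mul_pow, Finset.prod_mul_distrib, algebraMap_eq, map_mul, map_prod, map_pow]
  ring

lemma coeff_sc (σ : Fin d → Kˣ) (t : Fin d →₀ ℕ) (P : MvPolynomial (Fin d) K) :
    coeff t (sc σ P) = (∏ i, (σ i : K) ^ t i) * coeff t P := by
  induction P using MvPolynomial.induction_on' with
  | monomial u a =>
    rw [sc_monomial, coeff_monomial, coeff_monomial]
    split_ifs with h
    · rw [h]
    · simp
  | add p q hp hq => rw [map_add, coeff_add, coeff_add, hp, hq, mul_add]

lemma sc_sc (σ τ : Fin d → Kˣ) (P : MvPolynomial (Fin d) K) :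
    sc σ (sc τ P) = sc (σ * τ) P := by
  ext t
  simp only [coeff_sc, Pi.mul_apply, Units.val_mul, mul_pow, Finset.prod_mul_distrib]
  ring

lemma sc_one (P : MvPolynomial (Fin d) K) : sc 1 P = P := by
  ext t
  simp [coeff_sc]

lemma eval_sc (σ x : Fin d → Kˣ) (P : MvPolynomial (Fin d) K) :
    eval (fun i => (x i : K)) (sc σ P) = eval (fun i => ((σ * x) i : K)) P := by
  induction P using MvPolynomial.induction_on' with
  | monomial u a =>
    rw [sc_monomial, eval_monomial, eval_monomial, Finsupp.prod_fintype _ _ (by simp),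
      Finsupp.prod_fintype _ _ (by simp)]
    simp only [Pi.mul_apply, Units.val_mul, mul_pow, Finset.prod_mul_distrib]
    ring
  | add p q hp hq => rw [map_add, map_add, map_add, hp, hq]

lemma totalDegree_sc_le (σ : Fin d → Kˣ) (P : MvPolynomial (Fin d) K) :
    (sc σ P).totalDegree ≤ P.totalDegree := by
  apply totalDegree_le_of_support_subset
  intro t ht
  rw [mem_support_iff] at ht ⊢
  rw [coeff_sc] at ht
  exact right_ne_zero_of_mul ht

/-- Rescaling as a multiplicative equivalence. -/
noncomputable def scEquiv (σ : Fin d → Kˣ) :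
    MvPolynomial (Fin d) K ≃* MvPolynomial (Fin d) K where
  toFun := sc σ
  invFun := sc σ⁻¹
  left_inv P := by rw [sc_sc, inv_mul_cancel, sc_one]
  right_inv P := by rw [sc_sc, mul_inv_cancel, sc_one]
  map_mul' := map_mul _

lemma irreducible_sc (σ : Fin d → Kˣ) {q : MvPolynomial (Fin d) K} (hq : Irreducible q) :
    Irreducible (sc σ q) := (MulEquiv.irreducible_iff (scEquiv σ)).mpr hq

lemma one_le_totalDegree {q : MvPolynomial (Fin d) K} (hq : Irreducible q) :
    1 ≤ q.totalDegree := by
  by_contra h
  have h0 : q.totalDegree = 0 := by omega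
  rw [totalDegree_eq_zero_iff_eq_C] at h0
  apply hq.not_isUnit
  rw [h0]
  apply IsUnit.map
  rw [isUnit_iff_ne_zero]
  intro h1
  apply hq.ne_zero
  rw [h0, h1, map_zero]

lemma card_le_totalDegree_prod {ι : Type*} (s : Finset ι) (q : ι → MvPolynomial (Fin d) K)
    (hq : ∀ i ∈ s, Irreducible (q i)) : s.card ≤ (∏ i ∈ s, q i).totalDegree := by
  classical
  induction s using Finset.induction_on with
  | empty => simp
  | insert a s ha ih =>
    rw [Finset.prod_insert ha, Finset.card_insert_of_notMem ha,
      totalDegree_mul_of_isDomain (hq a (by simp)).ne_zero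
        (Finset.prod_ne_zero_iff.mpr fun i hi => (hq i (by simp [hi])).ne_zero)]
    have := one_le_totalDegree (hq a (by simp))
    have := ih fun i hi => hq i (by simp [hi])
    omega

/-- The character attached to an integer vector. -/
def chi (r : Fin d → ℤ) (σ : Fin d → Kˣ) : Kˣ := ∏ l, σ l ^ r l

/-- A common non-monomial factor of all translates gives a character with few values. -/
lemma few_values {ι : Type*} [Fintype ι] [DecidableEq K] (γ : ι → Fin d → Kˣ)
    (P q : MvPolynomial (Fin d) K) (hP : P ≠ 0) (hq : Irreducible q)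
    (hd : ∀ i, q ∣ sc (γ i) P) (t t' : Fin d →₀ ℕ) (ht : t ∈ q.support) (ht' : t' ∈ q.support) :
    (Finset.univ.image fun i => chi (fun l => (t l : ℤ) - t' l) (γ i)).card ≤ P.totalDegree := by
  classical
  set r : Fin d → ℤ := fun l => (t l : ℤ) - t' l with hr
  obtain ⟨s, -, hinj, himg⟩ := Finset.exists_subset_injOn_image_eq_of_surjOn
    (f := fun i => chi r (γ i)) (Set.univ : Set ι) (Finset.univ.image fun i => chi r (γ i))
    (by intro x hx; simpa using hx)
  rw [← himg, Finset.card_image_of_injOn hinj]
  have hirr : ∀ i, Irreducible (sc (γ i)⁻¹ q) := fun i => irreducible_sc _ hq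
  have hdvd : ∀ i, sc (γ i)⁻¹ q ∣ P := by
    intro i
    have := map_dvd (sc (γ i)⁻¹) (hd i)
    rwa [sc_sc, inv_mul_cancel, sc_one] at this
  have hprod : ∏ i ∈ s, sc (γ i)⁻¹ q ∣ P := by
    apply Finset.prod_dvd_of_isRelPrime _ fun i _ => hdvd i
    intro i hi j hj hij
    rw [Function.onFun, (hirr i).isRelPrime_iff_not_dvd]
    intro hdiv
    apply hij
    apply hinj hi hj
    obtain ⟨u, hu⟩ := (hirr i).associated_of_dvd (hirr j) hdiv
    obtain ⟨c, -, hc⟩ := isUnit_iff_eq_C_of_isReduced.mp u.isUnit
    rw [hc] at hu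
    have key : ∀ v ∈ q.support, (∏ l, (γ j l : K) ^ v l) * c = ∏ l, (γ i l : K) ^ v l := by
      intro v hv
      have h1 := congrArg (fun F => coeff v (sc (γ i * γ j) F)) hu
      simp only [map_mul, sc_sc] at h1
      have h2 : sc (γ i * γ j) (C c : MvPolynomial (Fin d) K) = C c := by simp [sc]
      have h3 : γ i * γ j * (γ i)⁻¹ = γ j := by rw [mul_comm (γ i), mul_inv_cancel_right]
      have h4 : γ i * γ j * (γ j)⁻¹ = γ i := by rw [mul_inv_cancel_right]
      rw [h2, h3, h4, mul_comm, coeff_C_mul, coeff_sc, coeff_sc] at h1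
      have h5 := mem_support_iff.mp hv
      apply mul_right_cancel₀ h5
      linear_combination h1
    have k1 := key t ht
    have k2 := key t' ht'
    have e : ∀ σ : Fin d → Kˣ, ((chi r σ : Kˣ) : K) =
        (∏ l, (σ l : K) ^ t l) / ∏ l, (σ l : K) ^ t' l := by
      intro σ
      rw [chi, ← Finset.prod_div_distrib, Units.coe_prod]
      refine Finset.prod_congr rfl fun l _ => ?_
      rw [Units.val_zpow_eq_zpow_val, hr, zpow_sub₀ (σ l).ne_zero, zpow_natCast, zpow_natCast]
    apply Units.ext
    have hc0 : c ≠ 0 := by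
      rintro rfl
      rw [mul_zero] at k1
      exact (Finset.prod_ne_zero_iff.mpr fun l _ => pow_ne_zero _ (γ i l).ne_zero) k1.symm
    rw [e, e, ← k1, ← k2, mul_div_mul_right _ _ hc0]
  exact (card_le_totalDegree_prod s _ fun i _ => hirr i).trans
    (totalDegree_le_of_dvd_of_isDomain hprod hP)

/-- Without a common factor, some linear combination of the translates is prime to `P`. -/
lemma exists_relPrime [Infinite K] {ι : Type*} [Fintype ι] (γ : ι → Fin d → Kˣ)
    (P : MvPolynomial (Fin d) K) (hP : P ≠ 0)
    (h : ∀ q, Irreducible q → ∃ i, ¬ q ∣ sc (γ i) P) :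
    ∃ c : ι → K, IsRelPrime P (∑ i, c i • sc (γ i) P) := by
  classical
  let Φ : (ι → K) →ₗ[K] MvPolynomial (Fin d) K := Fintype.linearCombination K fun i => sc (γ i) P
  let F := (UniqueFactorizationMonoid.factors P).toFinset
  let W : F → Submodule K (ι → K) := fun q =>
    ((Ideal.span {(q : MvPolynomial (Fin d) K)}).restrictScalars K).comap Φ
  have hW : ∀ q, W q ≠ ⊤ := by
    intro q hq
    have hirr : Irreducible (q : MvPolynomial (Fin d) K) :=
      UniqueFactorizationMonoid.irreducible_of_factor _ (Multiset.mem_toFinset.mp q.2)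
    obtain ⟨i, hi⟩ := h q hirr
    apply hi
    have : Pi.single i (1 : K) ∈ W q := by rw [hq]; trivial
    simpa [W, Φ, Ideal.mem_span_singleton] using this
  obtain ⟨c, hc⟩ := Submodule.exists_forall_notMem_of_forall_ne_top W hW
  refine ⟨c, WfDvdMonoid.isRelPrime_of_no_irreducible_factors (fun h => hP h.1) ?_⟩
  intro z hz hzP hzQ
  obtain ⟨q, hq, hzq⟩ := UniqueFactorizationMonoid.exists_mem_factors_of_dvd hP hz hzP
  apply hc ⟨q, Multiset.mem_toFinset.mpr hq⟩
  have : q ∣ ∑ i, c i • sc (γ i) P := hzq.symm.dvd.trans hzQ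
  simpa [W, Φ, Ideal.mem_span_singleton, Fintype.linearCombination_apply] using this

lemma isRelPrime_map {A B : Type*} [CommMonoid A] [CommMonoid B] (e : A ≃* B) {x y : A}
    (h : IsRelPrime x y) : IsRelPrime (e x) (e y) := by
  intro z hx hy
  have h1 : e.symm z ∣ x := by simpa using map_dvd e.symm hx
  have h2 : e.symm z ∣ y := by simpa using map_dvd e.symm hy
  simpa using (h h1 h2).map e

/-- The zero estimate. -/
theorem zero_estimate [Infinite K] [DecidableEq K] {ι : Type*} [Fintype ι] (e : ι) :
    ∀ (d T : ℕ) (γ : ι → Fin d → Kˣ), 1 ≤ T → γ e = 1 → ∀ P : MvPolynomial (Fin d) K, P ≠ 0 →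
      P.totalDegree ≤ T →
      (∀ s : Fin d → ι, eval (fun l => ((∏ i, γ (s i)) l : K)) P = 0) →
      ∃ r : Fin d → ℤ, r ≠ 0 ∧
        2 * (Finset.univ.image fun i => chi r (γ i)).card ≤ (2 * T) ^ (2 ^ d) := by
  intro d
  induction d with
  | zero =>
    intro T γ _ _ P hP _ hv
    exfalso
    apply hP
    have h := hv Fin.elim0
    rw [eq_C_of_isEmpty P] at h ⊢
    rw [eval_C] at h
    rw [h, map_zero]
  | succ d ih =>
    intro T γ hT he P
    induction hn : P.totalDegree using Nat.strong_induction_on generalizing P with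
    | _ n ihn =>
    intro hP hPT hv
    by_cases hA : ∃ q, Irreducible q ∧ ∀ i, q ∣ sc (γ i) P
    · obtain ⟨q, hq, hd⟩ := hA
      by_cases hs : ∃ t ∈ q.support, ∃ t' ∈ q.support, t ≠ t'
      · obtain ⟨t, ht, t', ht', htt⟩ := hs
        refine ⟨fun l => (t l : ℤ) - t' l, ?_, ?_⟩
        · intro h0
          apply htt
          ext l
          have := congrFun h0 l
          simp only [Pi.zero_apply] at this
          omega
        · have h1 := few_values γ P q hP hq hd t t' ht ht'
          have h2 : 2 * T ≤ (2 * T) ^ (2 ^ (d + 1)) :=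
            Nat.le_self_pow (by positivity) _
          omega
      · push Not at hs
        obtain ⟨t, ht⟩ := support_nonempty.mpr hq.ne_zero
        have hqm : q = monomial t (coeff t q) := by
          ext v
          rw [coeff_monomial]
          split_ifs with h
          · rw [h]
          · by_contra h1
            exact h (hs t ht v (mem_support_iff.mpr h1))
        have hd1 := hd e
        rw [he, sc_one] at hd1
        obtain ⟨P', hP'⟩ := hd1
        have hP'0 : P' ≠ 0 := by rintro rfl; exact hP (by rw [hP', mul_zero])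
        have hdeg : P.totalDegree = q.totalDegree + P'.totalDegree := by
          rw [hP', totalDegree_mul_of_isDomain hq.ne_zero hP'0]
        have := one_le_totalDegree hq
        refine ihn P'.totalDegree (by omega) P' rfl hP'0 (by omega) fun s => ?_
        have h1 := hv s
        rw [hP', map_mul] at h1
        refine (mul_eq_zero.mp h1).resolve_left ?_
        rw [hqm, eval_monomial, Finsupp.prod_fintype _ _ (by simp)]
        exact mul_ne_zero (mem_support_iff.mp ht)
          (Finset.prod_ne_zero_iff.mpr fun l _ => pow_ne_zero _ (Units.ne_zero _))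
    · push Not at hA
      obtain ⟨c, hc⟩ := exists_relPrime γ P hP hA
      set Q := ∑ i, c i • sc (γ i) P with hQ
      have hQT : Q.totalDegree ≤ T := by
        refine totalDegree_finsetSum_le fun i _ => ?_
        exact (totalDegree_smul_le _ _).trans ((totalDegree_sc_le _ _).trans (hn ▸ hPT))
      have hPT' : P.totalDegree ≤ T := hn ▸ hPT
      have hrel : IsRelPrime (finSuccEquiv K d P) (finSuccEquiv K d Q) :=
        isRelPrime_map (finSuccEquiv K d).toMulEquiv hc
      have hcoef : ∀ F : MvPolynomial (Fin (d + 1)) K, F.totalDegree ≤ T →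
          ∀ i, ((finSuccEquiv K d F).coeff i).totalDegree ≤ T := by
        intro F hF i
        by_cases h0 : (finSuccEquiv K d F).coeff i = 0
        · rw [h0]; simp
        · have := totalDegree_coeff_finSuccEquiv_add_le F i h0
          omega
      have hnat : ∀ F : MvPolynomial (Fin (d + 1)) K, F.totalDegree ≤ T →
          (finSuccEquiv K d F).natDegree ≤ T := by
        intro F hF
        rw [natDegree_finSuccEquiv]
        exact (degreeOf_le_totalDegree _ _).trans hF
      obtain ⟨ρ, hρ0, hρd, a, b, hab⟩ := exists_eliminant (finSuccEquiv K d P)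
        (finSuccEquiv K d Q) (by simpa using hP) hrel T hT (hnat P hPT') (hnat Q hQT)
        (hcoef P hPT') (hcoef Q hQT)
      obtain ⟨r, hr0, hr⟩ := ih (2 * T ^ 2) (fun i => Fin.tail (γ i)) (by nlinarith)
        (by rw [he]; rfl) ρ hρ0 hρd (by
          intro s
          let x : Fin (d + 1) → Kˣ := ∏ i, γ (s i)
          have hx : ∀ j, eval (fun l => ((γ j * x) l : K)) P = 0 := by
            intro j
            have := hv (Fin.cons j s)
            rwa [Fin.prod_univ_succ] at this
          have hxP : eval (fun l => (x l : K)) P = 0 := by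
            have := hx e
            rwa [he, one_mul] at this
          have hxQ : eval (fun l => (x l : K)) Q = 0 := by
            rw [hQ, map_sum]
            refine Finset.sum_eq_zero fun i _ => ?_
            rw [smul_eval, eval_sc, hx, mul_zero]
          have hcons : (fun l => (x l : K)) =
              Fin.cons (x 0 : K) (fun l => ((∏ i, Fin.tail (γ (s i))) l : K)) := by
            ext l
            refine Fin.cases rfl (fun l => ?_) l
            simp [x, Fin.tail]
          rw [hcons, eval_eq_eval_mv_eval'] at hxP hxQ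
          have h1 := congrArg (fun F => Polynomial.eval (x 0 : K) (Polynomial.map
            (eval (fun l => ((∏ i, Fin.tail (γ (s i))) l : K))) F)) hab
          simp only [Polynomial.map_add, Polynomial.map_mul, Polynomial.eval_add,
            Polynomial.eval_mul, hxP, hxQ, zero_mul, add_zero, Polynomial.map_C,
            Polynomial.eval_C] at h1
          exact h1.symm)
      refine ⟨Fin.cons 0 r, ?_, ?_⟩
      · intro h0
        apply hr0
        ext l
        simpa using congrFun h0 l.succ
      · have h1 : (fun i => chi (Fin.cons 0 r) (γ i)) = fun i => chi r (Fin.tail (γ i)) := by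
          ext i
          simp [chi, Fin.prod_univ_succ, Fin.tail]
        rw [h1]
        refine hr.trans (le_of_eq ?_)
        rw [pow_succ 2 d, mul_comm (2 ^ d) 2, pow_mul]
        congr 1
        ring

end Pool.Agent.MP_d171e3_nt
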